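import Mathlib
import Pool.Agent.H45.LT.Gn6
import Pool.Agent.H45.LT.Gn7

set_option autoImplicit false

/-!
# The Lieb-Thirring inequality in anisotropic traps

Let `d = m + 2 ≥ 2`, write `ℝ^d = ℝ² × ℝ^m`, `p = (x, y)`, and let `K_d^cl` be the semiclassical
constant. Let `α, β > 0` be arbitrary frequencies and let `φ_{α,a}` be the eigenfunctions of the
oscillator `-d²/ds² + α² s²`.

* (1) All frequencies. If the density matrix `0 ≤ γ ≤ 1` on `L²(ℝ^d)`, of finite or infinite rank,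
  commutes with both one-dimensional oscillators `-∂²/∂x_0² + α² x_0²` and `-∂²/∂x_1² + β² x_1²`,
  then `K_d^cl ∫ ρ^(1 + 2/d) ≤ tr (-Δ γ)`. Such `γ` are the sums `∑ ν_n |u_n⟩⟨u_n|` with orthonormal
  `u_n = φ_{α,a_n}(x_0) φ_{β,b_n}(x_1) f_n(y)`; the functions `f_n ∈ H¹(ℝ^m)` are arbitrary (of the
  class `C¹`), and there are no conditions between the `f_n` for different `(a_n, b_n)`.
* (2) Stationary states. The same is true if `γ` commutes with
  `(-Δ_x + α² x_0² + β² x_1²) / 2 + G` only, where `G` is a selfadjoint operator in the other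
  variables with eigenfunctions in `H¹`, in two cases: if there are no resonances, that is, if no
  difference of two eigenvalues of `G` is equal to `α k + β l` with integers `(k, l) ≠ (0, 0)`, and,
  for all `G`, if the frequencies `α, β` are in the ratio `1 : 2`.
* (3) In particular this is true for all density matrices which commute with the anisotropic
  harmonic oscillator `-Δ + α² x_0² + β² x_1² + ∑ ω_i² y_i²` on `ℝ^d`, if
  `α k + β l + ∑ ω_i z_i = 0` with integers `k, l, z_i` implies `k = l = 0`, and if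
  `(α, β) = (1, 2)`. The first condition holds for Lebesgue almost all frequencies; for `d = 2` it
  means that `α / β` is irrational. The eigenspaces have finite dimension, so that finite sums
  suffice.
* (4) Free fermions in a trap with the ratio `1 : 2`. Let `0 ≤ γ(0) ≤ 1` be any density matrix on
  `L²(ℝ^d)` and `γ(t)` its evolution with the Hamiltonian
  `(-Δ_x + x_0² + 4 x_1²) / 2 - 3 / 2 + G(t)`, where the `G(t)` are arbitrary selfadjoint operators in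
  the variables `y`. Then `K_d^cl ∫_0^{2π} ∫ ρ_t^(1 + 2/d) dt ≤ ∫_0^{2π} tr (-Δ γ(t)) dt`, the average
  over a period. Here `γ(t) = ∑ ν_n |u_n(t)⟩⟨u_n(t)|`, and the `u_n(t)` are finite sums of
  `c e^{-i (a + 2 b) t} φ_{1,a}(x_0) φ_{2,b}(x_1) e_j(t, y)` with orthonormal functions `e_j(t, ·)` in
  the other variables, which move in any measurable way.

Proof of (1), from which the nonresonant cases of (2) and (3) follow. Let
`w_n = (2n choose n) / 4^n` and let `γ_ab` be the blocks of `γ`, operators on `L²(ℝ^m)` with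
`0 ≤ γ_ab ≤ 1`. By the library's inequality
`K_d^cl ∫ ρ_D^(1 + 2/d) ≤ 2 π tr D² + tr (-Δ_y D)` for each `x` (lifting in dimension) one has to
prove `2 π ∫ tr D(x)² dx ≤ ∑ (α (a + 1/2) + β (b + 1/2)) tr γ_ab` for
`D(x) = ∑ φ_{α,a}(x_0)² φ_{β,b}(x_1)² γ_ab`. A three term recursion gives
`√(2π) ∫ h_a² h_c² = ∑_k w_k w_{a-k} w_{c-k}`, hence the left side is
`√(αβ) ∑_{k,j} w_k w_j tr Φ_kj²` with `Φ_kj = ∑_{a ≥ k, b ≥ j} w_{a-k} w_{b-j} γ_ab`. For each
`(k, j)` one has, with `λ² = α / β`, the operator inequality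
`tr Φ_kj² ≤ ∑ w_{a-k} w_{b-j} (λ (2 (a - k) + 1/2) + λ⁻¹ (2 (b - j) + 1/2)) tr γ_ab`,
and the sum of these is what we want, because `∑_k w_k w_{a-k} = 1` and
`∑_k w_k w_{a-k} (2 (a - k) + 1/2) = a + 1/2`. In the spectral representation of `Φ_kj` the
operator inequality follows from the bound for the Riesz means of the local density of the
anisotropic oscillator at the origin,
`∑_{a,b} w_a w_b (μ - λ (2 a + 1/2) - λ⁻¹ (2 b + 1/2))_+ ≤ μ² / 4` for all `μ ≥ 0`, `λ > 0`,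
with `μ = 2 Φ`. For `λ ≤ 1` the sum over `a` is, for each `b`, at most a polynomial of the second
degree in `μ` (termwise for all numbers of filled levels `a`), and these polynomials add up to
`μ² / 4` exactly.

Proof for the ratio `1 : 2`. Let `ρ_l` be the density of the filled level `l` of the oscillator in
the plane. The basic inequality is `2 π ∫ |v|² (2 ∑_{l < k} ρ_l + ρ_k) ≤ k + 3 / 2` for the
normalized functions `v` of the level `k`. (For the ratio `1 : 3` it fails numerically.) The matrix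
elements of the left side are weighted sums of the coefficients of
`q_{aa'}(X) q_{bb'}(X²) (1 + X)^(-1/2)`, where `∑_c (∫ h_a h_a' h_c²) X^c = q_{aa'}(X) f(X)`. Writing
`(1 + X)^(-1/2)` as the average of the geometric series with the ratios `- sin² θ` one gets the
multiple `k + 3 / 2` of the unit matrix plus an integral of negative semidefinite matrices. The
Gram matrix of the slices `u_n(t)(x, ·)` is a trigonometric polynomial in `t`, and Bessel's
inequality is applied to each of its frequencies.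
-/

open MeasureTheory Set
open scoped ENNReal

namespace Pool.Agent.Results.MP_cfe56d_mp.AnisotropicTraps

/-- `ℝ² × ℝ^m`, of dimension `d = m + 2`. -/
abbrev Space (m : ℕ) : Type := (Fin 2 → ℝ) × (Fin m → ℝ)

/-- `∫ ρ ^ (1 + 2 / d)` for the density `ρ = ∑ ν_n |u_n|²`, `d = m + 2`. -/
noncomputable def densityInt {m : ℕ} {κ : Type} (ν : κ → ℝ) (u : κ → Space m → ℂ) : ℝ≥0∞ :=
  ∫⁻ p, (∑' n, ENNReal.ofReal (ν n) * ‖u n p‖ₑ ^ 2) ^ (1 + 2 / ((m + 2 : ℕ) : ℝ))

/-- The kinetic energy `∑ ν_n ∫ |∇ u_n|²`. -/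
noncomputable def kinetic {m : ℕ} {κ : Type} (ν : κ → ℝ) (u : κ → Space m → ℂ) : ℝ≥0∞ :=
  ∑' n, ENNReal.ofReal (ν n) *
    ∫⁻ p, ((∑ q : Fin 2, ‖fderiv ℝ (u n) p (Pi.single q 1, 0)‖ₑ ^ 2) +
      ∑ q : Fin m, ‖fderiv ℝ (u n) p (0, Pi.single q 1)‖ₑ ^ 2)

/-- The semiclassical constant `d / (d + 2) * (2π)² / ω_d ^ (2 / d)`. -/
noncomputable def Kcl (d : ℕ) : ℝ :=
  d / (d + 2) * ((2 * Real.pi) ^ 2 /
    (volume (Metric.ball (0 : EuclideanSpace ℝ (Fin d)) 1)).toReal ^ ((2 : ℝ) / d))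

/-- The normalized Hermite function `h_n(t) = (n! √π)^(-1/2) He_n(√2 t) exp (- t² / 2)`. -/
noncomputable def hermiteFun (n : ℕ) (t : ℝ) : ℝ :=
  1 / √(n.factorial * √Real.pi) *
    ((Polynomial.hermite n).map (Int.castRingHom ℝ)).eval (√2 * t) * Real.exp (-t ^ 2 / 2)

/-- The normalized eigenfunction `φ_{ω,n}(t) = ω^(1/4) h_n(√ω t)` of `-d²/dt² + ω² t²` with the
eigenvalue `ω (2 n + 1)`. -/
noncomputable def oscFun (ω : ℝ) (n : ℕ) (t : ℝ) : ℝ := √(√ω) * hermiteFun n (√ω * t)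

/-- The products of the `φ_{ω_i,α_i}(y_i)`, the eigenfunctions of `-Δ + ∑ ω_i² y_i²` on `ℝ^m`. -/
noncomputable def oscProd {m : ℕ} (ω : Fin m → ℝ) (α : Fin m → ℕ) (y : Fin m → ℝ) : ℂ :=
  ((∏ i, oscFun (ω i) (α i) (y i) : ℝ) : ℂ)

/-- `f` is a square integrable `C¹` function on `ℝ^m` with square integrable derivatives. -/
def Sobolev {m : ℕ} (f : (Fin m → ℝ) → ℂ) : Prop :=
  ContDiff ℝ 1 f ∧ (Integrable fun y => ‖f y‖ ^ 2) ∧
  ∀ q, Integrable fun y => ‖fderiv ℝ f y (Pi.single q 1)‖ ^ 2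

/-- The common eigenfunctions `φ_{α,a}(x_0) φ_{β,b}(x_1) f(y)` of the oscillators
`-∂²/∂x_0² + α² x_0²` and `-∂²/∂x_1² + β² x_1²`. -/
noncomputable def joint {m : ℕ} (α β : ℝ) (a b : ℕ) (f : (Fin m → ℝ) → ℂ) (p : Space m) : ℂ :=
  ((oscFun α a (p.1 0) * oscFun β b (p.1 1) : ℝ) : ℂ) * f p.2

/-- The `e_j` are orthonormal `C¹` functions on `ℝ^m` with square integrable derivatives. -/
def OrthoFamily {m : ℕ} {ι : Type} [DecidableEq ι] (e : ι → (Fin m → ℝ) → ℂ) : Prop :=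
  (∀ j, Sobolev (e j)) ∧ ∀ i j, ∫ y, (starRingEnd ℂ) (e i y) * e j y = if i = j then 1 else 0

/-- The finite sum `∑ c_{a,b,j} e^{-i (α a + β b) t} φ_{α,a}(x_0) φ_{β,b}(x_1) e_j(y)`. For fixed
`e_j` this is the evolution of `∑ c_{a,b,j} φ_{α,a} φ_{β,b} e_j` with the Hamiltonian
`(-Δ_x + α² x_0² + β² x_1²) / 2 - (α + β) / 2`. -/
noncomputable def wave {m : ℕ} {ι : Type} (α β : ℝ) (e : ι → (Fin m → ℝ) → ℂ)
    (c : ℕ × ℕ × ι →₀ ℂ) (t : ℝ) (p : Space m) : ℂ :=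
  c.sum fun i z => z * Complex.exp (-((α * i.1 + β * i.2.1 : ℝ) * t * Complex.I)) *
    ((oscFun α i.1 (p.1 0) * oscFun β i.2.1 (p.1 1) : ℝ) : ℂ) * e i.2.2 p.2

/-- The frequencies are in the ratio `1 : 2`, or there are no resonances with the energies `g_j`. -/
def Admissible {ι : Type} (α β : ℝ) (g : ι → ℝ) : Prop :=
  (α = 1 ∧ β = 2) ∨
    (0 < α ∧ 0 < β ∧ ∀ (i j : ι) (k l : ℤ), g i - g j = α * k + β * l → k = 0 ∧ l = 0)

/-- The functions `u_n` are orthonormal. -/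
def Orthonormal {m : ℕ} {κ : Type} [DecidableEq κ] (u : κ → Space m → ℂ) : Prop :=
  ∀ n n', ∫ p, (starRingEnd ℂ) (u n p) * u n' p = if n = n' then 1 else 0

/-- **The Lieb-Thirring inequality in anisotropic traps.** -/
theorem result :
    -- (1) density matrices which commute with two one-dimensional oscillators
    (∀ (m : ℕ) (κ : Type) [DecidableEq κ] [Countable κ] (α β : ℝ) (a b : κ → ℕ)
      (f : κ → (Fin m → ℝ) → ℂ) (ν : κ → ℝ), 0 < α → 0 < β → (∀ n, Sobolev (f n)) →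
      Orthonormal (fun n => joint α β (a n) (b n) (f n)) → (∀ n, 0 ≤ ν n ∧ ν n ≤ 1) →
      ENNReal.ofReal (Kcl (m + 2)) * densityInt ν (fun n => joint α β (a n) (b n) (f n)) ≤
        kinetic ν (fun n => joint α β (a n) (b n) (f n))) ∧
    -- (2) stationary states: `u_n` belongs to the eigenvalue `E` of
    -- `(-Δ_x + α² x_0² + β² x_1²) / 2 - (α + β) / 2 + G`
    (∀ (m : ℕ) (ι κ : Type) [DecidableEq ι] [DecidableEq κ] [Countable κ] (α β : ℝ)
      (e : ι → (Fin m → ℝ) → ℂ) (g : ι → ℝ) (c : κ → (ℕ × ℕ × ι →₀ ℂ)) (ν : κ → ℝ),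
      Admissible α β g → OrthoFamily e →
      (∀ n, ∃ E : ℝ, ∀ i ∈ (c n).support, α * i.1 + β * i.2.1 + g i.2.2 = E) →
      Orthonormal (fun n => wave α β e (c n) 0) → (∀ n, 0 ≤ ν n ∧ ν n ≤ 1) →
      ENNReal.ofReal (Kcl (m + 2)) * densityInt ν (fun n => wave α β e (c n) 0) ≤
        kinetic ν (fun n => wave α β e (c n) 0)) ∧
    -- (3) the oscillator `-Δ + α² x_0² + β² x_1² + ∑ ω_i² y_i²` on `ℝ^(m + 2)`
    (∀ (m : ℕ) (κ : Type) [DecidableEq κ] [Countable κ] (α β : ℝ) (ω : Fin m → ℝ)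
      (c : κ → (ℕ × ℕ × (Fin m → ℕ) →₀ ℂ)) (ν : κ → ℝ), 0 < α → 0 < β → (∀ q, 0 < ω q) →
      ((α = 1 ∧ β = 2) ∨
        ∀ (k l : ℤ) (z : Fin m → ℤ), α * k + β * l + ∑ q, ω q * z q = 0 → k = 0 ∧ l = 0) →
      (∀ n, ∃ E : ℝ, ∀ i ∈ (c n).support,
        α * i.1 + β * i.2.1 + ∑ q, ω q * i.2.2 q = E) →
      Orthonormal (fun n => wave α β (oscProd ω) (c n) 0) → (∀ n, 0 ≤ ν n ∧ ν n ≤ 1) →
      ENNReal.ofReal (Kcl (m + 2)) * densityInt ν (fun n => wave α β (oscProd ω) (c n) 0) ≤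
        kinetic ν (fun n => wave α β (oscProd ω) (c n) 0)) ∧
    -- almost all frequencies have no resonances
    (∀ m : ℕ, ∀ᵐ ω : Fin (m + 2) → ℝ, ∀ (k l : ℤ) (z : Fin m → ℤ),
      ω 0 * k + ω 1 * l + ∑ q : Fin m, ω q.succ.succ * z q = 0 → k = 0 ∧ l = 0) ∧
    -- (4) the ratio `1 : 2`: the average over a period, for arbitrary states
    (∀ (m : ℕ) (ι κ : Type) [DecidableEq ι] [DecidableEq κ] [Countable κ]
      (e : ℝ → ι → (Fin m → ℝ) → ℂ) (c : κ → (ℕ × ℕ × ι →₀ ℂ)) (ν : κ → ℝ),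
      (∀ t, OrthoFamily (e t)) → (∀ j, Measurable fun q : ℝ × (Fin m → ℝ) => e q.1 j q.2) →
      Orthonormal (fun n => wave 1 2 (e 0) (c n) 0) → (∀ n, 0 ≤ ν n ∧ ν n ≤ 1) →
      ENNReal.ofReal (Kcl (m + 2)) *
        ∫⁻ t in Icc (0:ℝ) (2 * Real.pi), densityInt ν (fun n => wave 1 2 (e t) (c n) t) ≤
          ∫⁻ t in Icc (0:ℝ) (2 * Real.pi), kinetic ν (fun n => wave 1 2 (e t) (c n) t)) ∧
    -- the `φ_{ω,n}` are the normalized eigenfunctions in dimension one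
    (∀ ω : ℝ, 0 < ω → (∀ m n : ℕ, ∫ t, oscFun ω m t * oscFun ω n t = if m = n then 1 else 0) ∧
      ∀ (n : ℕ) (t : ℝ), deriv (deriv (oscFun ω n)) t =
        (ω ^ 2 * t ^ 2 - ω * (2 * n + 1)) * oscFun ω n t) := by
  have hh : hermiteFun = Pool.Agent.H45.LT.Osc.h := by
    funext n t
    rw [Pool.Agent.H45.LT.Osc.h_eq]
    rfl
  have ho : oscFun = Pool.Agent.H45.LT.Tz.hs := by
    funext ω n t
    simp only [oscFun, Pool.Agent.H45.LT.Tz.hs, hh]
  have hp : ∀ (m : ℕ) (ω : Fin m → ℝ), (oscProd ω : (Fin m → ℕ) → (Fin m → ℝ) → ℂ) =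
      Pool.Agent.H45.LT.Tz.hsp ω := by
    intro m ω
    funext α y
    simp only [oscProd, Pool.Agent.H45.LT.Tz.hsp, ho]
  have hj : ∀ {m : ℕ} (α β : ℝ) (a b : ℕ) (f : (Fin m → ℝ) → ℂ),
      joint α β a b f = Pool.Agent.H45.LT.Gn.pf α β a b f := by
    intro m α β a b f
    funext p
    simp only [joint, Pool.Agent.H45.LT.Gn.pf, Pool.Agent.H45.LT.Gn.H, ho]
  have hw0 : ∀ {m : ℕ} {ι : Type} (α β : ℝ) (e : ι → (Fin m → ℝ) → ℂ) (c : ℕ × ℕ × ι →₀ ℂ),
      wave α β e c 0 = Pool.Agent.H45.LT.Gn.uf α β e c := by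
    intro m ι α β e c
    funext p
    simp only [wave, Pool.Agent.H45.LT.Gn.uf, ho, Complex.ofReal_zero, mul_zero, zero_mul,
      neg_zero, Complex.exp_zero, mul_one]
  have hw2 : ∀ {m : ℕ} {ι : Type} (e : ι → (Fin m → ℝ) → ℂ) (c : ℕ × ℕ × ι →₀ ℂ) (t : ℝ),
      wave 1 2 e c t = Pool.Agent.H45.LT.Tz.wv e c t := by
    intro m ι e c t
    funext p
    have h1 : ∀ a b : ℕ, (((1 * (a:ℝ) + 2 * (b:ℝ) : ℝ)) : ℂ) = ((a + 2 * b : ℕ) : ℂ) := by
      intro a b; push_cast; ring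
    simp only [wave, Pool.Agent.H45.LT.Tz.wv, ho, Pool.Agent.H45.LT.Tz.hs_two, h1]
  have hF : ∀ {m : ℕ} {ι : Type} [DecidableEq ι] {e : ι → (Fin m → ℝ) → ℂ}, OrthoFamily e →
      Pool.Agent.H45.LT.Tz.FamG e := fun h =>
    ⟨fun j => (h.1 j).1, fun j => (h.1 j).2.1, fun j => (h.1 j).2.2, h.2⟩
  have h2 : ∀ (m : ℕ) (ι κ : Type) [DecidableEq ι] [DecidableEq κ] [Countable κ] (α β : ℝ)
      (e : ι → (Fin m → ℝ) → ℂ) (g : ι → ℝ) (c : κ → (ℕ × ℕ × ι →₀ ℂ)) (ν : κ → ℝ),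
      Admissible α β g → OrthoFamily e →
      (∀ n, ∃ E : ℝ, ∀ i ∈ (c n).support, α * i.1 + β * i.2.1 + g i.2.2 = E) →
      Orthonormal (fun n => wave α β e (c n) 0) → (∀ n, 0 ≤ ν n ∧ ν n ≤ 1) →
      ENNReal.ofReal (Kcl (m + 2)) * densityInt ν (fun n => wave α β e (c n) 0) ≤
        kinetic ν (fun n => wave α β e (c n) 0) := by
    intro m ι κ _ _ _ α β e g c ν hg he hE hu hν
    rcases hg with ⟨hα, hβ⟩ | ⟨hα, hβ, hg⟩
    · subst hα hβ
      simp only [Orthonormal, hw2] at hu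
      simp only [densityInt, kinetic, hw2]
      refine Pool.Agent.H45.LT.Tz.stat_ineq (hF he) hu hν (g := g) fun n => ?_
      obtain ⟨E, hE⟩ := hE n
      exact ⟨E, fun i hi => by rw [← hE i hi]; push_cast; ring⟩
    · simp only [Orthonormal, hw0] at hu
      simp only [densityInt, kinetic, hw0]
      exact Pool.Agent.H45.LT.Gn.nonres hα hβ (hF he) (g := g)
        (fun i j k l h => by
          have h2 := hg i j (-k) (-l) (by push_cast; linarith)
          omega) c ν hE hu hν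
  refine ⟨?_, h2, ?_, Pool.Agent.H45.LT.Gn.ae_nonres, ?_, ?_⟩
  · intro m κ _ _ α β a b f ν hα hβ hf hu hν
    simp only [Orthonormal, hj] at hu
    simp only [densityInt, kinetic, hj]
    exact Pool.Agent.H45.LT.Gn.inf_main hα hβ a b f (fun n => ⟨(hf n).1, (hf n).2.1, (hf n).2.2⟩)
      ν hν hu
  · intro m κ _ _ α β ω c ν hα hβ hω hg hE hu hν
    have hf := Pool.Agent.H45.LT.Tz.hsp_fam hω
    have hfam : OrthoFamily (oscProd ω : (Fin m → ℕ) → (Fin m → ℝ) → ℂ) := by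
      rw [hp]
      exact ⟨fun j => ⟨hf.cd j, hf.L2 j, hf.dL2 j⟩, hf.ortho⟩
    refine h2 m (Fin m → ℕ) κ α β (oscProd ω) (fun γ => ∑ q, ω q * γ q) c ν ?_ hfam hE hu hν
    refine hg.imp id fun hg => ⟨hα, hβ, fun γ δ k l h => ?_⟩
    have h3 := hg (-k) (-l) (fun q => (γ q : ℤ) - δ q) (by
      push_cast
      simp only [mul_sub, Finset.sum_sub_distrib]
      linarith)
    omega
  · intro m ι κ _ _ _ e c ν he hm hu hν
    simp only [Orthonormal, hw2] at hu
    simp only [densityInt, kinetic, hw2]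
    exact Pool.Agent.H45.LT.Tz.inf_avg hm (fun t _ => hF (he t)) hu hν
  · intro ω hω
    rw [ho]
    exact ⟨fun m n => Pool.Agent.H45.LT.Tz.hs_ortho hω m n,
      fun n t => Pool.Agent.H45.LT.Tz.hs_ode hω n t⟩

end Pool.Agent.Results.MP_cfe56d_mp.AnisotropicTraps
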