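import Mathlib
import Pool.Agent.H45.LT.Tr12

set_option autoImplicit false

/-!
# The Lieb-Thirring inequality in harmonic traps

Let `d = m + 2 ≥ 2`, write `ℝ^d = ℝ² × ℝ^m`, `p = (x, y)`, and let `K_d^cl` be the semiclassical
constant.

* (1) Free fermions in a harmonic trap. Let `0 ≤ γ(0) ≤ 1` be a density matrix on `L²(ℝ^d)` and
  `γ(t)` its evolution with the Hamiltonian `(-Δ_x + |x|²) / 2 - 1 + G(t)`, where the `G(t)` are
  arbitrary selfadjoint operators in the other variables `y`. Then the kinetic inequality holds with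
  the semiclassical constant on the average over a period of the oscillator:
  `K_d^cl ∫_0^{2π} ∫ ρ_t^(1 + 2/d) dt ≤ ∫_0^{2π} tr (-Δ γ(t)) dt`.
  Here `γ(t) = ∑ ν_n |u_n(t)⟩⟨u_n(t)|`, of finite or infinite rank, and the `u_n(t)` are finite sums
  of `c e^{-i (a + b) t} h_a(x_0) h_b(x_1) e_j(t, y)` with Hermite functions `h_a`, with arbitrary
  coefficients, and with orthonormal functions `e_j(t, ·)` in the other variables, which move in
  any measurable way.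
* (2) Stationary states. If `γ` commutes with `(-Δ_x + |x|²) / 2 + G`, where `G` is a selfadjoint
  operator in the other variables with eigenfunctions `e_j` in `H¹` and eigenvalues `g_j`, then
  `K_d^cl ∫ ρ^(1 + 2/d) ≤ tr (-Δ γ)`.
* (3) In particular this is true for all density matrices `0 ≤ γ ≤ 1` on `L²(ℝ^d)`, `d ≥ 2`,
  which commute with the isotropic harmonic oscillator `-Δ + |p|²`, of finite or infinite rank.
* (4) In dimension two equality holds for those of finite rank exactly if `γ` is the projection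
  onto the first `K` levels of the oscillator, for some `K`.

Proof. Let `D_t(x)` be the operator on `L²(ℝ^m)` with the kernel `γ(t)(x, y; x, y')`. The Gram
matrix of the slices `u_n(t)(x, ·)` is a trigonometric polynomial `∑_z e^{i z t} β_z(x)` and does
not depend on the motion of the `e_j`, so the average of `tr D_t(x)²` is the sum over `z` of the
`∑ ν_n ν_n' |β_z|²`. For each single `z` Bessel's inequality bounds this by
`∑_n ν_n ∑_l |u_{n,l}(x, ·)|² ρ_{l - z}(x)`, where `u_{n,l}` is the part of `u_n` in the level `l`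
and `ρ_l` the density of the filled level `l`. By the symmetry `z → -z` only `z ≥ 0` is needed, and
the sum rule `2 π ∫ |v|² (2 ∑_{l < k} ρ_l + ρ_k) = k + 1` for the normalized functions `v` of the
level `k` shows that the average of `2 π ∫ tr D_t²` is at most the average of the kinetic energy in
the plane. The inequality `K_d^cl ∫ ρ_D^(1 + 2/d) ≤ 2 π tr D² + tr (-Δ_y D)` of the starting
library (lifting in dimension) concludes the proof. The sum rule follows from the generating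
functions `∑_c (∫ h_a h_a' h_c²) X^c = q_{aa'}(X) f(X)`, `2 π (1 - X) f² = 1`, with polynomials
`q_{aa'}` of degree at most `(a + a') / 2` with known values and derivatives at `1`.
-/

open MeasureTheory Set
open scoped ENNReal

namespace Pool.Agent.Results.MP_cfe56d_mp.HarmonicTrap

/-- `ℝ² × ℝ^m`, of dimension `d = m + 2`. -/
abbrev Space (m : ℕ) : Type := (Fin 2 → ℝ) × (Fin m → ℝ)

/-- `∫ ρ ^ (1 + 2 / d)` for the density `ρ = ∑ ν_n |u_n|²`, `d = m + 2`. -/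
noncomputable def densityInt {m : ℕ} {κ : Type} (ν : κ → ℝ) (u : κ → Space m → ℂ) : ℝ≥0∞ :=
  ∫⁻ p, (∑' n, ENNReal.ofReal (ν n) * ‖u n p‖ₑ ^ 2) ^ (1 + 2 / ((m + 2 : ℕ) : ℝ))

/-- The kinetic energy `∑ ν_n ∫ |∇ u_n|²`. -/
noncomputable def kinetic {m : ℕ} {κ : Type} (ν : κ → ℝ) (u : κ → Space m → ℂ) : ℝ≥0∞ :=
  ∑' n, ENNReal.ofReal (ν n) *
    ∫⁻ p, ((∑ q : Fin 2, ‖fderiv ℝ (u n) p (Pi.single q 1, 0)‖ₑ ^ 2) +
      ∑ q : Fin m, ‖fderiv ℝ (u n) p (0, Pi.single q 1)‖ₑ ^ 2)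

/-- The semiclassical constant `d / (d + 2) * (2π)² / ω_d ^ (2 / d)`. -/
noncomputable def Kcl (d : ℕ) : ℝ :=
  d / (d + 2) * ((2 * Real.pi) ^ 2 /
    (volume (Metric.ball (0 : EuclideanSpace ℝ (Fin d)) 1)).toReal ^ ((2 : ℝ) / d))

/-- The normalized Hermite function `h_n(t) = (n! √π)^(-1/2) He_n(√2 t) exp (- t² / 2)`. -/
noncomputable def hermiteFun (n : ℕ) (t : ℝ) : ℝ :=
  1 / √(n.factorial * √Real.pi) *
    ((Polynomial.hermite n).map (Int.castRingHom ℝ)).eval (√2 * t) * Real.exp (-t ^ 2 / 2)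

/-- The products of the Hermite functions, the eigenfunctions of the oscillator on `ℝ^m`. -/
noncomputable def hermiteProd {m : ℕ} (α : Fin m → ℕ) (y : Fin m → ℝ) : ℂ :=
  ((∏ i, hermiteFun (α i) (y i) : ℝ) : ℂ)

/-- The `e_j` are orthonormal `C¹` functions on `ℝ^m` with square integrable derivatives. -/
def OrthoFamily {m : ℕ} {ι : Type} [DecidableEq ι] (e : ι → (Fin m → ℝ) → ℂ) : Prop :=
  (∀ j, ContDiff ℝ 1 (e j)) ∧ (∀ j, Integrable fun y => ‖e j y‖ ^ 2) ∧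
  (∀ j q, Integrable fun y => ‖fderiv ℝ (e j) y (Pi.single q 1)‖ ^ 2) ∧
  ∀ i j, ∫ y, (starRingEnd ℂ) (e i y) * e j y = if i = j then 1 else 0

/-- The finite sum `∑ c_{a,b,j} e^{-i (a + b) t} h_a(x_0) h_b(x_1) e_j(y)`. For fixed `e_j` this is
the evolution of `∑ c_{a,b,j} h_a h_b e_j` with the Hamiltonian `(-Δ_x + |x|²) / 2 - 1`. -/
noncomputable def wave {m : ℕ} {ι : Type} (e : ι → (Fin m → ℝ) → ℂ) (c : ℕ × ℕ × ι →₀ ℂ)
    (t : ℝ) (p : Space m) : ℂ :=
  c.sum fun i z => z * Complex.exp (-((i.1 + i.2.1 : ℕ) * t * Complex.I)) *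
    ((hermiteFun i.1 (p.1 0) * hermiteFun i.2.1 (p.1 1) : ℝ) : ℂ) * e i.2.2 p.2

/-- The functions `u_n` are orthonormal. -/
def Orthonormal {m : ℕ} {κ : Type} [DecidableEq κ] (u : κ → Space m → ℂ) : Prop :=
  ∀ n n', ∫ p, (starRingEnd ℂ) (u n p) * u n' p = if n = n' then 1 else 0

/-- **The Lieb-Thirring inequality in harmonic traps.** -/
theorem result :
    -- (1) the average over a period, for arbitrary states
    (∀ (m : ℕ) (ι κ : Type) [DecidableEq ι] [DecidableEq κ] [Countable κ]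
      (e : ℝ → ι → (Fin m → ℝ) → ℂ) (c : κ → (ℕ × ℕ × ι →₀ ℂ)) (ν : κ → ℝ),
      (∀ t, OrthoFamily (e t)) → (∀ j, Measurable fun q : ℝ × (Fin m → ℝ) => e q.1 j q.2) →
      Orthonormal (fun n => wave (e 0) (c n) 0) → (∀ n, 0 ≤ ν n ∧ ν n ≤ 1) →
      ENNReal.ofReal (Kcl (m + 2)) *
        ∫⁻ t in Icc (0:ℝ) (2 * Real.pi), densityInt ν (fun n => wave (e t) (c n) t) ≤
          ∫⁻ t in Icc (0:ℝ) (2 * Real.pi), kinetic ν (fun n => wave (e t) (c n) t)) ∧
    -- (2) stationary states: `u_n` belongs to the eigenvalue `E` of `(-Δ_x + |x|²) / 2 - 1 + G`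
    (∀ (m : ℕ) (ι κ : Type) [DecidableEq ι] [DecidableEq κ] [Countable κ]
      (e : ι → (Fin m → ℝ) → ℂ) (g : ι → ℝ) (c : κ → (ℕ × ℕ × ι →₀ ℂ)) (ν : κ → ℝ),
      OrthoFamily e → (∀ n, ∃ E : ℝ, ∀ i ∈ (c n).support, ((i.1 + i.2.1 : ℕ) : ℝ) + g i.2.2 = E) →
      Orthonormal (fun n => wave e (c n) 0) → (∀ n, 0 ≤ ν n ∧ ν n ≤ 1) →
      ENNReal.ofReal (Kcl (m + 2)) * densityInt ν (fun n => wave e (c n) 0) ≤
        kinetic ν (fun n => wave e (c n) 0)) ∧
    -- (3) the isotropic oscillator on `ℝ^(m + 2)`: `u_n` belongs to the level `k`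
    (∀ (m : ℕ) (κ : Type) [DecidableEq κ] [Countable κ]
      (c : κ → (ℕ × ℕ × (Fin m → ℕ) →₀ ℂ)) (ν : κ → ℝ),
      (∀ n, ∃ k : ℕ, ∀ i ∈ (c n).support, i.1 + i.2.1 + ∑ q, i.2.2 q = k) →
      Orthonormal (fun n => wave hermiteProd (c n) 0) → (∀ n, 0 ≤ ν n ∧ ν n ≤ 1) →
      ENNReal.ofReal (Kcl (m + 2)) * densityInt ν (fun n => wave hermiteProd (c n) 0) ≤
        kinetic ν (fun n => wave hermiteProd (c n) 0)) ∧
    -- (4) in the plane equality holds exactly for the filled levels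
    (∀ (N : ℕ) (k : Fin N → ℕ) (c : Fin N → (ℕ × ℕ × Unit →₀ ℂ)) (ν : Fin N → ℝ)
      (u : Fin N → Space 0 → ℂ), (∀ n, u n = wave (fun _ _ => 1) (c n) 0) →
      (∀ n, ∀ i ∈ (c n).support, i.1 + i.2.1 = k n) →
      Orthonormal u → (∀ n, 0 ≤ ν n ∧ ν n ≤ 1) →
      (ENNReal.ofReal (Kcl 2) * densityInt ν u = kinetic ν u ↔
        ∃ K : ℕ, (∀ n, ν n ≠ 0 → k n < K) ∧
          ∀ l < K, ∑ n ∈ Finset.univ.filter (fun n => k n = l), ν n = (l : ℝ) + 1)) ∧
    -- the Hermite functions are the normalized eigenfunctions in dimension one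
    (∀ m n : ℕ, ∫ t, hermiteFun m t * hermiteFun n t = if m = n then 1 else 0) ∧
    (∀ (n : ℕ) (t : ℝ), deriv (deriv (hermiteFun n)) t = (t ^ 2 - (2 * n + 1)) * hermiteFun n t) := by
  have hh : hermiteFun = Pool.Agent.H45.LT.Osc.h := by
    funext n t
    rw [Pool.Agent.H45.LT.Osc.h_eq]
    rfl
  have hp : ∀ m : ℕ, (hermiteProd : (Fin m → ℕ) → (Fin m → ℝ) → ℂ) =
      Pool.Agent.H45.LT.Tr.hp := by
    intro m
    funext α y
    simp only [hermiteProd, Pool.Agent.H45.LT.Tr.hp, hh]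
  have hwv : ∀ {m : ℕ} {ι : Type} (e : ι → (Fin m → ℝ) → ℂ) (c : ℕ × ℕ × ι →₀ ℂ) (t : ℝ),
      wave e c t = Pool.Agent.H45.LT.Tr.wv e c t := by
    intro m ι e c t
    funext p
    simp only [wave, Pool.Agent.H45.LT.Tr.wv, hh]
  have hF : ∀ {m : ℕ} {ι : Type} [DecidableEq ι] {e : ι → (Fin m → ℝ) → ℂ}, OrthoFamily e →
      Pool.Agent.H45.LT.Tr.FamG e := fun h => ⟨h.1, h.2.1, h.2.2.1, h.2.2.2⟩
  have h2 : ∀ (m : ℕ) (ι κ : Type) [DecidableEq ι] [DecidableEq κ] [Countable κ]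
      (e : ι → (Fin m → ℝ) → ℂ) (g : ι → ℝ) (c : κ → (ℕ × ℕ × ι →₀ ℂ)) (ν : κ → ℝ),
      OrthoFamily e → (∀ n, ∃ E : ℝ, ∀ i ∈ (c n).support, ((i.1 + i.2.1 : ℕ) : ℝ) + g i.2.2 = E) →
      Orthonormal (fun n => wave e (c n) 0) → (∀ n, 0 ≤ ν n ∧ ν n ≤ 1) →
      ENNReal.ofReal (Kcl (m + 2)) * densityInt ν (fun n => wave e (c n) 0) ≤
        kinetic ν (fun n => wave e (c n) 0) := by
    intro m ι κ _ _ _ e g c ν he hE ho hν
    simp only [Orthonormal, hwv] at ho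
    simp only [densityInt, kinetic, hwv]
    exact Pool.Agent.H45.LT.Tr.stat_ineq (hF he) ho hν hE
  refine ⟨?_, h2, ?_, ?_, ?_, ?_⟩
  · intro m ι κ _ _ _ e c ν he hm ho hν
    simp only [Orthonormal, hwv] at ho
    simp only [densityInt, kinetic, hwv]
    exact Pool.Agent.H45.LT.Tr.inf_avg hm (fun t _ => hF (he t)) ho hν
  · intro m κ _ _ c ν hk ho hν
    have hfam : OrthoFamily (hermiteProd : (Fin m → ℕ) → (Fin m → ℝ) → ℂ) := by
      rw [hp]
      exact ⟨Pool.Agent.H45.LT.Tr.hp_fam.cd, Pool.Agent.H45.LT.Tr.hp_fam.L2,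
        Pool.Agent.H45.LT.Tr.hp_fam.dL2, Pool.Agent.H45.LT.Tr.hp_fam.ortho⟩
    refine h2 m (Fin m → ℕ) κ hermiteProd (fun α => ((∑ q, α q : ℕ) : ℝ)) c ν hfam (fun n => ?_)
      ho hν
    obtain ⟨k, hk⟩ := hk n
    exact ⟨k, fun i hi => by rw [← hk i hi]; push_cast; ring⟩
  · intro N k c ν u hu hk ho hν
    have hu' : u = fun n => Pool.Agent.H45.LT.Tr.wv (fun (_ : Unit) (_ : Fin 0 → ℝ) => (1:ℂ))
        (c n) 0 := funext fun n => by rw [hu, hwv]
    subst hu'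
    have h := Pool.Agent.H45.LT.Tr.plane_eq hk ho hν
    simp only [densityInt, kinetic, tsum_fintype, Finset.sum_filter]
    exact h
  · intro m n
    rw [hh]
    exact Pool.Agent.H45.LT.Osc.h_ortho m n
  · intro n t
    rw [hh]
    exact Pool.Agent.H45.LT.Osc.h_ode n t

end Pool.Agent.Results.MP_cfe56d_mp.HarmonicTrap
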