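import Mathlib
import Pool.Agent.H45.LT.Mg6

set_option autoImplicit false

/-!
# The Lieb-Thirring inequality for density matrices that commute with a homogeneous magnetic field

Let `d = m + 2 ≥ 2`, write `ℝ^d = ℝ² × ℝ^m`, `p = (x, y)`, and let `K_d^cl` be the semiclassical
constant. All kinetic energies are the ordinary ones, `tr (-Δ γ)`, without a magnetic field; the
fields only serve to describe the symmetry of `γ`.

* (1) Let `0 ≤ γ ≤ 1` be a density matrix on `L²(ℝ^d)`, of finite or infinite rank, which commutes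
  with `H = (-Δ_x + b² |x|²) / 2 + b Ω L + G`, where `L` is the angular momentum in the plane,
  `b > 0`, `Ω ≠ 0` is any real number and `G` is any selfadjoint operator in the other variables
  `y`, with eigenfunctions `e_j` in `H¹` and eigenvalues `g_j`. Then
  `K_d^cl ∫ ρ^(1 + 2/d) ≤ tr (-Δ γ)`.
  For `|Ω| ≤ 1` this is the Hamiltonian of particles in the plane in a homogeneous magnetic field
  `2 b |Ω|` and a harmonic trap of the frequency `b √(1 - Ω²)` (Fock-Darwin), with any dynamics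
  in the variables `y`.
* (2) In particular this is true if `γ` commutes with the Landau Hamiltonian
  `(-i ∇_x + b (x_1, -x_0))²` in the plane, whose levels `2 b (2 q + 1)` are infinitely degenerate:
  every `u_n` is a function in a Landau level `q` for every `y`, and its dependence on `y` and on
  the other quantum number `p` is arbitrary.
* The functions `landauFun b p q` used here are given explicitly. They are orthonormal, they are
  eigenfunctions of `-Δ + b² |x|²` with the eigenvalues `2 b (p + q + 1)` and of the angular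
  momentum with the eigenvalues `p - q`.

Proof. The products of Hermite functions are expressed by ladder operators; this gives the formula
for the functions `landauFun 1 p q`, whose evolution with the oscillator `(-Δ_x + |x|²) / 2 - 1` is
the multiplication by `e^{-i (p + q) t}`. Let `u_n(t)` be the evolution of `u_n` with
`(-Δ_x + |x|²) / 2 - 1 + G`. If `u_n` is an eigenfunction of `H` then `u_n(t)` is `u_n` rotated
by the angle `Ω t` up to a phase, so the density and the kinetic energy of `γ(t)` are those of `γ`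
up to a rotation of the plane, although `γ` is not stationary for the oscillator. So the inequality
for the average over a period of the oscillator (`Pool.Agent.H45.LT.Tr.inf_avg`, see the hand-in
HarmonicTrap, the case `Ω = 0`) becomes the inequality for `γ`. A dilation gives all `b`.
-/

open MeasureTheory Set
open scoped ENNReal

namespace Pool.Agent.Results.MP_cfe56d_mp.LandauLevels

/-- `ℝ² × ℝ^m`, of dimension `d = m + 2`. -/
abbrev Space (m : ℕ) : Type := (Fin 2 → ℝ) × (Fin m → ℝ)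

/-- `∫ ρ ^ (1 + 2 / d)` for the density `ρ = ∑ ν_n |u_n|²`, `d = m + 2`. -/
noncomputable def densityInt {m : ℕ} {κ : Type} (ν : κ → ℝ) (u : κ → Space m → ℂ) : ℝ≥0∞ :=
  ∫⁻ p, (∑' n, ENNReal.ofReal (ν n) * ‖u n p‖ₑ ^ 2) ^ (1 + 2 / ((m + 2 : ℕ) : ℝ))

/-- The kinetic energy `∑ ν_n ∫ |∇ u_n|²`. -/
noncomputable def kinetic {m : ℕ} {κ : Type} (ν : κ → ℝ) (u : κ → Space m → ℂ) : ℝ≥0∞ :=
  ∑' n, ENNReal.ofReal (ν n) *
    ∫⁻ p, ((∑ q : Fin 2, ‖fderiv ℝ (u n) p (Pi.single q 1, 0)‖ₑ ^ 2) +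
      ∑ q : Fin m, ‖fderiv ℝ (u n) p (0, Pi.single q 1)‖ₑ ^ 2)

/-- The semiclassical constant `d / (d + 2) * (2π)² / ω_d ^ (2 / d)`. -/
noncomputable def Kcl (d : ℕ) : ℝ :=
  d / (d + 2) * ((2 * Real.pi) ^ 2 /
    (volume (Metric.ball (0 : EuclideanSpace ℝ (Fin d)) 1)).toReal ^ ((2 : ℝ) / d))

/-- The function `√(b / (π p! q!)) e^{-b |x|² / 2} ∑_{k ≤ q} (-1)^k k! (p choose k) (q choose k)
(√b z)^(p - k) (√b z̄)^(q - k)`, `z = x_0 + i x_1`. It is in the Landau level `q` of the magnetic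
field `2 b`, its angular momentum is `p - q`. -/
noncomputable def landauFun (b : ℝ) (p q : ℕ) (x : Fin 2 → ℝ) : ℂ :=
  ((√(b / (Real.pi * p.factorial * q.factorial)) : ℝ) : ℂ) *
    (∑ k ∈ Finset.range (q + 1), (-1) ^ k * ((k.factorial * p.choose k * q.choose k : ℕ) : ℂ) *
      (√b * ((x 0 : ℂ) + (x 1 : ℂ) * Complex.I)) ^ (p - k) *
      (√b * ((x 0 : ℂ) - (x 1 : ℂ) * Complex.I)) ^ (q - k)) *
    ((Real.exp (-(b / 2 * (x 0 ^ 2 + x 1 ^ 2))) : ℝ) : ℂ)

/-- The `e_j` are orthonormal `C¹` functions on `ℝ^m` with square integrable derivatives. -/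
def OrthoFamily {m : ℕ} {ι : Type} [DecidableEq ι] (e : ι → (Fin m → ℝ) → ℂ) : Prop :=
  (∀ j, ContDiff ℝ 1 (e j)) ∧ (∀ j, Integrable fun y => ‖e j y‖ ^ 2) ∧
  (∀ j q, Integrable fun y => ‖fderiv ℝ (e j) y (Pi.single q 1)‖ ^ 2) ∧
  ∀ i j, ∫ y, (starRingEnd ℂ) (e i y) * e j y = if i = j then 1 else 0

/-- The finite sum `∑ c_{p,q,j} f_{p,q}(x) e_j(y)` with the functions `f_{p,q} = landauFun b p q`. -/
noncomputable def wave {m : ℕ} {ι : Type} (b : ℝ) (e : ι → (Fin m → ℝ) → ℂ)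
    (c : ℕ × ℕ × ι →₀ ℂ) (p : Space m) : ℂ :=
  c.sum fun i z => z * landauFun b i.1 i.2.1 p.1 * e i.2.2 p.2

/-- The functions `u_n` are orthonormal. -/
def Orthonormal {m : ℕ} {κ : Type} [DecidableEq κ] (u : κ → Space m → ℂ) : Prop :=
  ∀ n n', ∫ p, (starRingEnd ℂ) (u n p) * u n' p = if n = n' then 1 else 0

/-- The rotation of the plane by the angle `θ`. -/
noncomputable def rotate (θ : ℝ) (x : Fin 2 → ℝ) : Fin 2 → ℝ :=
  ![Real.cos θ * x 0 - Real.sin θ * x 1, Real.sin θ * x 0 + Real.cos θ * x 1]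

/-- **The Lieb-Thirring inequality for density matrices which commute with a homogeneous magnetic
field.** -/
theorem result :
    -- (1) a magnetic field and a trap in the plane, any operator in the other variables: `u_n`
    -- belongs to the eigenvalue `E` of `(-Δ_x + b² |x|²) / 2 + b Ω L + G`
    (∀ (m : ℕ) (ι κ : Type) [DecidableEq ι] [DecidableEq κ] [Countable κ] (b Ω : ℝ)
      (e : ι → (Fin m → ℝ) → ℂ) (g : ι → ℝ) (c : κ → (ℕ × ℕ × ι →₀ ℂ)) (ν : κ → ℝ),
      0 < b → Ω ≠ 0 → OrthoFamily e →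
      (∀ n, ∃ E : ℝ, ∀ i ∈ (c n).support,
        b * ((i.1 : ℝ) + i.2.1 + 1) + b * Ω * ((i.1 : ℝ) - i.2.1) + g i.2.2 = E) →
      Orthonormal (fun n => wave b e (c n)) → (∀ n, 0 ≤ ν n ∧ ν n ≤ 1) →
      ENNReal.ofReal (Kcl (m + 2)) * densityInt ν (fun n => wave b e (c n)) ≤
        kinetic ν (fun n => wave b e (c n))) ∧
    -- (2) in particular the Landau levels: `u_n` is in a Landau level `q`
    (∀ (m : ℕ) (ι κ : Type) [DecidableEq ι] [DecidableEq κ] [Countable κ] (b : ℝ)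
      (e : ι → (Fin m → ℝ) → ℂ) (c : κ → (ℕ × ℕ × ι →₀ ℂ)) (ν : κ → ℝ),
      0 < b → OrthoFamily e → (∀ n, ∃ q : ℕ, ∀ i ∈ (c n).support, i.2.1 = q) →
      Orthonormal (fun n => wave b e (c n)) → (∀ n, 0 ≤ ν n ∧ ν n ≤ 1) →
      ENNReal.ofReal (Kcl (m + 2)) * densityInt ν (fun n => wave b e (c n)) ≤
        kinetic ν (fun n => wave b e (c n))) ∧
    -- the functions `landauFun b p q` are orthonormal eigenfunctions of `-Δ + b² |x|²` and of the
    -- angular momentum
    (∀ b : ℝ, 0 < b →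
      (∀ p q p' q' : ℕ, ∫ x, (starRingEnd ℂ) (landauFun b p q x) * landauFun b p' q' x =
        if p = p' ∧ q = q' then 1 else 0) ∧
      (∀ (p q : ℕ) (x : Fin 2 → ℝ), deriv (deriv fun s => landauFun b p q ![s, x 1]) (x 0) +
        deriv (deriv fun s => landauFun b p q ![x 0, s]) (x 1) =
          ((b ^ 2 * (x 0 ^ 2 + x 1 ^ 2) - 2 * b * ((p:ℝ) + q + 1) : ℝ) : ℂ) *
            landauFun b p q x) ∧
      (∀ (p q : ℕ) (θ : ℝ) (x : Fin 2 → ℝ), landauFun b p q (rotate θ x) =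
        Complex.exp (((p:ℂ) - q) * θ * Complex.I) * landauFun b p q x)) := by
  have hl : landauFun = Pool.Agent.H45.LT.Mg.lab := rfl
  have hw : ∀ {m : ℕ} {ι : Type} [DecidableEq ι] (b : ℝ) (e : ι → (Fin m → ℝ) → ℂ)
      (c : ℕ × ℕ × ι →₀ ℂ), wave b e c = Pool.Agent.H45.LT.Mg.wb b e c := fun _ _ _ => rfl
  have hF : ∀ {m : ℕ} {ι : Type} [DecidableEq ι] {e : ι → (Fin m → ℝ) → ℂ}, OrthoFamily e →
      Pool.Agent.H45.LT.Tr.FamG e := fun h => ⟨h.1, h.2.1, h.2.2.1, h.2.2.2⟩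
  have h1 : ∀ (m : ℕ) (ι κ : Type) [DecidableEq ι] [DecidableEq κ] [Countable κ] (b Ω : ℝ)
      (e : ι → (Fin m → ℝ) → ℂ) (g : ι → ℝ) (c : κ → (ℕ × ℕ × ι →₀ ℂ)) (ν : κ → ℝ),
      0 < b → OrthoFamily e →
      (∀ n, ∃ E : ℝ, ∀ i ∈ (c n).support,
        b * ((i.1 : ℝ) + i.2.1 + 1) + b * Ω * ((i.1 : ℝ) - i.2.1) + g i.2.2 = E) →
      Orthonormal (fun n => wave b e (c n)) → (∀ n, 0 ≤ ν n ∧ ν n ≤ 1) →
      ENNReal.ofReal (Kcl (m + 2)) * densityInt ν (fun n => wave b e (c n)) ≤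
        kinetic ν (fun n => wave b e (c n)) := by
    intro m ι κ _ _ _ b Ω e g c ν hb he hE ho hν
    simp only [Orthonormal, hw] at ho
    simp only [densityInt, kinetic, hw]
    refine Pool.Agent.H45.LT.Mg.mag_b hb Ω (g := g) (hF he) ho hν fun n => ?_
    obtain ⟨E, hE⟩ := hE n
    refine ⟨E - b, fun i hi => ?_⟩
    rw [← hE i hi]; ring
  refine ⟨fun m ι κ _ _ _ b Ω e g c ν hb _ he hE ho hν =>
    h1 m ι κ b Ω e g c ν hb he hE ho hν, ?_, ?_⟩
  · intro m ι κ _ _ _ b e c ν hb he hq ho hν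
    refine h1 m ι κ b (-1) e (fun _ => 0) c ν hb he (fun n => ?_) ho hν
    obtain ⟨q, hq⟩ := hq n
    exact ⟨b * (2 * q + 1), fun i hi => by rw [hq i hi]; ring⟩
  · intro b hb
    rw [hl]
    exact ⟨fun p q p' q' => Pool.Agent.H45.LT.Mg.lab_ortho hb p q p' q',
      fun p q x => Pool.Agent.H45.LT.Mg.lab_pde hb p q x,
      fun p q θ x => Pool.Agent.H45.LT.Mg.lab_rot hb p q θ x⟩

end Pool.Agent.Results.MP_cfe56d_mp.LandauLevels
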