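import Mathlib
import Pool.Agent.H45.LT.Red8

set_option autoImplicit false

/-!
# The Lieb-Thirring inequality and the norms of reduced density matrices

Let `F` be a subspace of `ℝ^d` of dimension `k` and let `γ_F` be the reduced one-particle density
matrix on `L²(F)` of the functions `u_1, …, u_N`: the operator `∑ |u_n⟩⟨u_n|` traced over the
variables in the orthogonal complement of `F`. The kinetic inequality is proved with a constant
which depends on the norm of `γ_F` (even of its real part) and on nothing else; the number of the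
functions is arbitrary.

Proof. In the directions of `F` the inequality of the starting file `AllDimensions` is applied to
`γ_F` (which is first replaced by finitely many functions `∫ u_n(t, y) b_i(y) dy`, with an
orthonormal basis `b_i` of the functions of `y`), in the other directions the sharp scalar
inequalities in dimension one, iterated with the inequality of Hölder.
-/

open MeasureTheory Set Topology
open Filter hiding join
open Matrix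

namespace Pool.Agent.Results.MP_cfe56d_mp.ReducedDensityMatrices

/-- `∫ ρ ^ (1 + 2 / d)` for the density `ρ = ∑ |u_n|²`. -/
noncomputable def densityInt {d N : ℕ} (u : Fin N → (Fin d → ℝ) → ℂ) : ℝ :=
  ∫ x, (∑ n, ‖u n x‖ ^ 2) ^ (1 + 2 / (d : ℝ))

/-- The kinetic energy `∑ ∫ |∇ u_n|²`. -/
noncomputable def kinetic {d N : ℕ} (u : Fin N → (Fin d → ℝ) → ℂ) : ℝ :=
  ∑ n, ∑ q, ∫ x, ‖fderiv ℝ (u n) x (Pi.single q 1)‖ ^ 2

/-- The semiclassical constant `d / (d + 2) * (2π)² / ω_d ^ (2 / d)`. -/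
noncomputable def Kcl (d : ℕ) : ℝ :=
  d / (d + 2) * ((2 * Real.pi) ^ 2 /
    (volume (Metric.ball (0 : EuclideanSpace ℝ (Fin d)) 1)).toReal ^ ((2 : ℝ) / d))

/-- `N_d = ((d + 1) ^ (d - 1) (d + 2) ^ d / 4 ^ d) ^ (1 / 2) / d!`. -/
noncomputable def Nd (d : ℕ) : ℝ :=
  √(((d:ℝ) + 1) ^ (d - 1) * ((d:ℝ) + 2) ^ d / (4 ^ d * (d.factorial : ℝ) ^ 2))

/-- The point of `ℝ^(m + k)` with the first `k` coordinates `t` and the last `m` coordinates `y`. -/
def join {m k : ℕ} (t : Fin k → ℝ) (y : Fin m → ℝ) : Fin (m + k) → ℝ := fun j =>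
  if h : (j : ℕ) < k then t ⟨j, h⟩ else y ⟨j - k, by have := j.isLt; omega⟩

/-- Let `F` be the span of the first `k` columns of the orthogonal matrix `O` and let
`v_n(t, y) = u_n(O (t, y))`, so that `t ∈ ℝ^k` are coordinates of `F` and `y ∈ ℝ^m` are coordinates
of its orthogonal complement. `ReducedLE Λ O u` says that
`∑ ∫ |∫ f(t) v_n(t, y) dt|² dy ≤ Λ ∫ f²` for all real `f ∈ C_c(ℝ^k)`, that is, the real part of the
reduced density matrix `γ_F`, with the kernel `∑ ∫ v_n(t, y) conj v_n(t', y) dy`, is at most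
`Λ`. -/
def ReducedLE {m k N : ℕ} (Λ : ℝ) (O : Matrix (Fin (m + k)) (Fin (m + k)) ℝ)
    (u : Fin N → (Fin (m + k) → ℝ) → ℂ) : Prop :=
  ∀ f : (Fin k → ℝ) → ℝ, Continuous f → HasCompactSupport f →
    ∑ n, ∫ y : Fin m → ℝ, ‖∫ t : Fin k → ℝ, (f t : ℂ) * u n (O *ᵥ join t y)‖ ^ 2 ≤
      Λ * ∫ t, f t ^ 2

/-- **The Lieb-Thirring inequality with the norm of a reduced density matrix.** -/
theorem result :
    -- (1) the constant `σ K_d^cl` for `d = m + k` and `4 σ ^ d Λ² N_k² ≤ 3 N_d²`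
    (∀ m k N : ℕ, 1 ≤ k → ∀ u : Fin N → (Fin (m + k) → ℝ) → ℂ, (∀ n, ContDiff ℝ 1 (u n)) →
      (∀ n, HasCompactSupport (u n)) → ∀ O : Matrix (Fin (m + k)) (Fin (m + k)) ℝ, Oᵀ * O = 1 →
      ∀ Λ : ℝ, 0 < Λ → ReducedLE Λ O u →
      ∀ σ : ℝ, 0 ≤ σ → 4 * (σ ^ (m + k) * (Λ ^ 2 * Nd k ^ 2)) ≤ 3 * Nd (m + k) ^ 2 →
      σ * Kcl (m + k) * densityInt u ≤ kinetic u) ∧
    -- (2) the semiclassical constant if the norm on a line or on a plane is at most `N_d`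
    (∀ m k N : ℕ, 1 ≤ k → k ≤ 2 → ∀ u : Fin N → (Fin (m + k) → ℝ) → ℂ,
      (∀ n, ContDiff ℝ 1 (u n)) → (∀ n, HasCompactSupport (u n)) →
      ∀ O : Matrix (Fin (m + k)) (Fin (m + k)) ℝ, Oᵀ * O = 1 →
      ∀ Λ : ℝ, 0 < Λ → Λ ≤ Nd (m + k) → ReducedLE Λ O u →
      Kcl (m + k) * densityInt u ≤ kinetic u) ∧
    -- (3) the semiclassical constant in the dimensions `d ≥ 5` if the norm is at most one on some
    -- proper subspace
    (∀ m k N : ℕ, 1 ≤ k → 1 ≤ m → 5 ≤ m + k → ∀ u : Fin N → (Fin (m + k) → ℝ) → ℂ,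
      (∀ n, ContDiff ℝ 1 (u n)) → (∀ n, HasCompactSupport (u n)) →
      ∀ O : Matrix (Fin (m + k)) (Fin (m + k)) ℝ, Oᵀ * O = 1 → ReducedLE 1 O u →
      Kcl (m + k) * densityInt u ≤ kinetic u) ∧
    -- (4) in particular for products `φ_n(t) g_n(y)` with orthonormal `φ_n` and arbitrary `g_n`
    (∀ m k N : ℕ, 1 ≤ k → 1 ≤ m → (5 ≤ m + k ∨ (k ≤ 2 ∧ m + k = 4)) →
      ∀ u : Fin N → (Fin (m + k) → ℝ) → ℂ,
      (∀ n, ContDiff ℝ 1 (u n)) → (∀ n, HasCompactSupport (u n)) →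
      ∀ O : Matrix (Fin (m + k)) (Fin (m + k)) ℝ, Oᵀ * O = 1 →
      ∀ (φ : Fin N → (Fin k → ℝ) → ℂ) (g : Fin N → (Fin m → ℝ) → ℂ),
      (∀ n, MemLp (φ n) 2 volume) →
      (∀ n n', ∫ t, (starRingEnd ℂ) (φ n t) * φ n' t = if n = n' then 1 else 0) →
      (∀ n, ∫ y, ‖g n y‖ ^ 2 ≤ 1) → (∀ n t y, u n (O *ᵥ join t y) = φ n t * g n y) →
      Kcl (m + k) * densityInt u ≤ kinetic u) ∧
    -- (5) the norm is at most the number of the functions
    (∀ m k N : ℕ, ∀ u : Fin N → (Fin (m + k) → ℝ) → ℂ, (∀ n, Continuous (u n)) →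
      (∀ n, HasCompactSupport (u n)) → (∀ n, ∫ x, ‖u n x‖ ^ 2 ≤ 1) →
      ∀ O : Matrix (Fin (m + k)) (Fin (m + k)) ℝ, Oᵀ * O = 1 → ReducedLE (N : ℝ) O u) ∧
    -- (6) the size of `N_d`
    (∀ d : ℕ, 4 ≤ d → 1 < Nd d) ∧ (∀ d : ℕ, 8 ≤ d → 2 ≤ Nd d) ∧ (∀ d : ℕ, 16 ≤ d → 10 ≤ Nd d) ∧
    ∀ c : ℝ, 0 ≤ c → c < Real.exp 1 / 2 → ∀ᶠ d : ℕ in atTop, c ^ d ≤ Nd d := by
  have hdet : ∀ {d : ℕ} {O : Matrix (Fin d) (Fin d) ℝ}, Oᵀ * O = 1 → O.det ^ 2 = 1 := by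
    intro d O hO
    have h := congrArg Matrix.det hO
    rw [Matrix.det_mul, Matrix.det_transpose, Matrix.det_one] at h
    rw [sq]; exact h
  have hA : ∀ d, Nd d ^ 2 = Pool.Agent.N674.LT.ad d := fun d => Pool.Agent.N674.LT.Nd_sq d
  have H1 : ∀ m k N : ℕ, 1 ≤ k → ∀ u : Fin N → (Fin (m + k) → ℝ) → ℂ,
      (∀ n, ContDiff ℝ 1 (u n)) →
      (∀ n, HasCompactSupport (u n)) → ∀ O : Matrix (Fin (m + k)) (Fin (m + k)) ℝ, Oᵀ * O = 1 →
      ∀ Λ : ℝ, 0 < Λ → ReducedLE Λ O u →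
      ∀ σ : ℝ, 0 ≤ σ → 4 * (σ ^ (m + k) * (Λ ^ 2 * Nd k ^ 2)) ≤ 3 * Nd (m + k) ^ 2 →
      σ * Kcl (m + k) * densityInt u ≤ kinetic u := by
    intro m k N hk u hu hc O hO Λ hΛ hR σ hσ hs
    rw [hA, hA] at hs
    exact Pool.Agent.H45.LT.reduced_rot hk u hu hc hO hΛ hR hσ (by linarith)
  have H3 : ∀ m k N : ℕ, 1 ≤ k → 1 ≤ m → 5 ≤ m + k → ∀ u : Fin N → (Fin (m + k) → ℝ) → ℂ,
      (∀ n, ContDiff ℝ 1 (u n)) → (∀ n, HasCompactSupport (u n)) →
      ∀ O : Matrix (Fin (m + k)) (Fin (m + k)) ℝ, Oᵀ * O = 1 → ReducedLE 1 O u →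
      Kcl (m + k) * densityInt u ≤ kinetic u := by
    intro m k N hk hm h5 u hu hc O hO hR
    have h := H1 m k N hk u hu hc O hO 1 one_pos hR 1 zero_le_one (by
      rw [hA, hA, one_pow, one_pow, one_mul, one_mul]
      exact Pool.Agent.H45.LT.ratio43 h5 hk (by omega))
    rwa [one_mul] at h
  have H2 : ∀ m k N : ℕ, 1 ≤ k → k ≤ 2 → ∀ u : Fin N → (Fin (m + k) → ℝ) → ℂ,
      (∀ n, ContDiff ℝ 1 (u n)) → (∀ n, HasCompactSupport (u n)) →
      ∀ O : Matrix (Fin (m + k)) (Fin (m + k)) ℝ, Oᵀ * O = 1 →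
      ∀ Λ : ℝ, 0 < Λ → Λ ≤ Nd (m + k) → ReducedLE Λ O u →
      Kcl (m + k) * densityInt u ≤ kinetic u := by
    intro m k N hk hk2 u hu hc O hO Λ hΛ hΛN hR
    have h34 : Nd k ^ 2 = 3 / 4 := by
      rcases (show k = 1 ∨ k = 2 by omega) with rfl | rfl
      · exact Pool.Agent.N674.LT.Nd_one
      · exact Pool.Agent.N674.LT.Nd_two
    have h := H1 m k N hk u hu hc O hO Λ hΛ hR 1 zero_le_one (by
      have h1 : Λ ^ 2 ≤ Nd (m + k) ^ 2 := pow_le_pow_left₀ hΛ.le hΛN 2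
      rw [h34, one_pow]
      linarith)
    rwa [one_mul] at h
  refine ⟨H1, H2, H3, ?_, ?_, fun d hd => Pool.Agent.N674.LT.one_lt_Nd hd,
    fun d hd => Pool.Agent.N674.LT.two_le_Nd hd, fun d hd => Pool.Agent.N674.LT.ten_le_Nd hd,
    fun c h0 h1 => Pool.Agent.N674.LT.Nd_growth h0 h1⟩
  · intro m k N hk hm h5 u hu hc O hO φ g hφ ho hg hv
    have hR : ReducedLE 1 O u := by
      intro f hf hfs
      exact Pool.Agent.H45.LT.prod_red (fun n t y => u n (O *ᵥ join t y)) φ hφ ho g hg hv hf hfs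
    rcases h5 with h5 | ⟨hk2, h4⟩
    · exact H3 m k N hk hm h5 u hu hc O hO hR
    · refine H2 m k N hk hk2 u hu hc O hO 1 one_pos ?_ hR
      exact (Pool.Agent.N674.LT.one_lt_Nd (show 4 ≤ m + k by omega)).le
  · intro m k N u hu hc h1 O hO f hf hfs
    have hcomp' : ∀ x, Oᵀ *ᵥ (O *ᵥ x) = x := fun x => by
      rw [Matrix.mulVec_mulVec, hO, Matrix.one_mulVec]
    refine Pool.Agent.H45.LT.few_red (fun n x => u n (O *ᵥ x))
      (fun n => (hu n).comp (Pool.Agent.Q219.LT.cont_mul O)) (fun n => ?_) (fun n => ?_) hf hfs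
    · refine HasCompactSupport.intro
        ((hc n).isCompact.image (Pool.Agent.Q219.LT.cont_mul (Oᵀ))) fun x hx => ?_
      exact image_eq_zero_of_notMem_tsupport fun h => hx ⟨O *ᵥ x, h, hcomp' x⟩
    · rw [Pool.Agent.Q219.LT.int_comp (hdet hO) (fun x => ‖u n x‖ ^ 2)]
      exact h1 n

end Pool.Agent.Results.MP_cfe56d_mp.ReducedDensityMatrices
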